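import Mathlib

/-!
# Orbits of a flow with Hausdorff orbit space (helper305, piece ORB of MP_74810d_gt)

The argument of the doc string of S_ORB in Run7/h841/FQ/Iface.lean, in general form.
-/

set_option autoImplicit false
set_option linter.unusedVariables false
set_option linter.unusedSectionVars false
set_option linter.style.haveILetI false

namespace Run7.h305.FQ

open Set Topology Filter

section gen

variable {N : Type} [MetricSpace N] [CompleteSpace N]

/-- what is needed of the flow -/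
structure Fl (Φ : ℝ → N → N) : Prop where
  cont : Continuous (fun p : ℝ × N => Φ p.1 p.2)
  zero : ∀ x, Φ 0 x = x
  add : ∀ (s t : ℝ) (x : N), Φ (s + t) x = Φ s (Φ t x)

variable {Φ : ℝ → N → N}

theorem Fl.neg_eq (h : Fl Φ) (t : ℝ) (x : N) : Φ (-t) (Φ t x) = x := by
  rw [← h.add]; simp [h.zero]

theorem Fl.ct (h : Fl Φ) (x : N) : Continuous (fun t => Φ t x) :=
  h.cont.comp (by fun_prop : Continuous fun t : ℝ => (t, x))

theorem Fl.cx (h : Fl Φ) (t : ℝ) : Continuous (fun x => Φ t x) :=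
  h.cont.comp (by fun_prop : Continuous fun x : N => (t, x))

/-- some neighbourhood of `z` meets the closed orbit only in a bounded arc -/
theorem Fl.arc (h : Fl Φ) (z : N) (hO : IsClosed (range (fun t => Φ t z))) :
    ∃ (m : ℝ) (U : Set N), IsOpen U ∧ z ∈ U ∧ ∀ x ∈ U, x ∈ range (fun t => Φ t z) →
      ∃ t, |t| ≤ m ∧ Φ t z = x := by
  classical
  set O : Set N := range (fun t => Φ t z) with hOdef
  haveI : CompleteSpace O := hO.completeSpace_coe
  haveI : Nonempty O := ⟨⟨z, 0, h.zero z⟩⟩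
  let K : ℕ → Set N := fun n => (fun t => Φ t z) '' Icc (-(n : ℝ)) n
  have hK : ∀ n, IsCompact (K n) := fun n => isCompact_Icc.image (h.ct z)
  let f : ℕ → Set O := fun n => Subtype.val ⁻¹' K n
  have hf : ∀ n, IsClosed (f n) := fun n => (hK n).isClosed.preimage continuous_subtype_val
  have hU : ⋃ n, f n = univ := by
    rw [eq_univ_iff_forall]
    rintro ⟨x, t, rfl⟩
    obtain ⟨n, hn⟩ := exists_nat_ge |t|
    rw [abs_le] at hn
    exact mem_iUnion.2 ⟨n, t, hn, rfl⟩
  obtain ⟨n, ⟨y, hy⟩⟩ := nonempty_interior_of_iUnion_of_closed hf hU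
  obtain ⟨V, hVf, hVo, hyV⟩ := mem_interior.1 hy
  obtain ⟨W, hWo, rfl⟩ := isOpen_induced_iff.1 hVo
  obtain ⟨y, s, rfl⟩ := y
  refine ⟨n + |s|, {x | Φ s x ∈ W}, hWo.preimage (h.cx s), hyV, ?_⟩
  rintro x hx ⟨t, rfl⟩
  have hx' : Φ s (Φ t z) ∈ W := hx
  have h1 : (⟨Φ s (Φ t z), s + t, by simp [h.add]⟩ : O) ∈ f n := hVf (by exact hx')
  obtain ⟨r, hr, hr2⟩ := h1
  have hr2' : Φ r z = Φ s (Φ t z) := hr2
  refine ⟨r - s, ?_, ?_⟩
  · have := abs_le.2 hr
    calc |r - s| ≤ |r| + |s| := abs_sub _ _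
      _ ≤ _ := by linarith
  · have : Φ (r - s) z = Φ (-s) (Φ r z) := by rw [← h.add]; ring_nf
    rw [this, hr2', h.neg_eq]

theorem Fl.proper (h : Fl Φ) (z : N) (hO : IsClosed (range (fun t => Φ t z)))
    (hinj : ∀ t, Φ t z = z → t = 0) (C : Set N) (hC : IsCompact C) :
    ∃ T : ℝ, ∀ t, Φ t z ∈ C → |t| ≤ T := by
  obtain ⟨m, U, hUo, hzU, hU⟩ := h.arc z hO
  by_contra hcon
  push Not at hcon
  choose t ht1 ht2 using fun n : ℕ => hcon n
  have hinj' : ∀ a b, Φ a z = Φ b z → a = b := by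
    intro a b hab
    have : Φ (a - b) z = z := by
      have : Φ (a - b) z = Φ (-b) (Φ a z) := by rw [← h.add]; ring_nf
      rw [this, hab, h.neg_eq]
    have := hinj _ this
    linarith
  have hC' : IsCompact (C ∩ range (fun t => Φ t z)) := hC.inter_right hO
  obtain ⟨y, ⟨hyC, s, rfl⟩, φ, hφ, hlim⟩ := hC'.tendsto_subseq
    (x := fun n => Φ (t n) z) (fun n => ⟨ht1 n, t n, rfl⟩)
  have hlim2 : Tendsto (fun n => Φ (-s) (Φ (t (φ n)) z)) atTop (𝓝 z) := by
    have := ((h.cx (-s)).tendsto (Φ s z)).comp hlim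
    simpa [Function.comp_def, h.neg_eq] using this
  have hev : ∀ᶠ n in atTop, Φ (-s) (Φ (t (φ n)) z) ∈ U := hlim2 (hUo.mem_nhds hzU)
  obtain ⟨n, hn1, hn2⟩ := (hev.and (eventually_ge_atTop (⌈m + |s|⌉₊))).exists
  have hn1' : Φ (-s) (Φ (t (φ n)) z) ∈ U := hn1
  obtain ⟨r, hr, hr2⟩ := hU _ hn1' ⟨-s + t (φ n), by simp [h.add]⟩
  rw [← h.add] at hr2
  have hrr := hinj' _ _ hr2
  have h1 := ht2 (φ n)
  have h2 : m + |s| ≤ (φ n : ℝ) := by
    have h3 : m + |s| ≤ (⌈m + |s|⌉₊ : ℝ) := Nat.le_ceil _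
    have h4 : (⌈m + |s|⌉₊ : ℝ) ≤ (n : ℝ) := by exact_mod_cast hn2
    have h5 : (n : ℝ) ≤ (φ n : ℝ) := by exact_mod_cast hφ.id_le n
    linarith
  have h3 : |t (φ n)| ≤ |r| + |s| := by
    have : t (φ n) = r + s := by rw [hrr]; ring
    rw [this]; exact abs_add_le _ _
  linarith

theorem Fl.period (h : Fl Φ) (z : N) (hz : ¬ ∀ t, Φ t z = z) (t₀ : ℝ) (ht₀ : t₀ ≠ 0)
    (h0 : Φ t₀ z = z) :
    IsCompact (range (fun t => Φ t z)) ∧
      ∃ P : ℝ, 0 < P ∧ Φ P z = z ∧ ∀ t, Φ t z = z → ∃ n : ℤ, t = n * P := by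
  let S : AddSubgroup ℝ :=
    { carrier := {t | Φ t z = z}
      add_mem' := by
        intro a b ha hb
        simp only [mem_ofPred_eq] at *
        rw [h.add, hb, ha]
      zero_mem' := h.zero z
      neg_mem' := by
        intro a ha
        simp only [mem_ofPred_eq] at *
        have := h.neg_eq a z
        rwa [ha] at this }
  have hS : ∀ t, t ∈ S ↔ Φ t z = z := fun t => Iff.rfl
  have hcl : IsClosed (S : Set ℝ) := isClosed_eq (h.ct z) continuous_const
  have key : ∃ P : ℝ, 0 < P ∧ Φ P z = z ∧ ∀ t, Φ t z = z → ∃ n : ℤ, t = n * P := by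
    rcases S.dense_or_cyclic with hd | ⟨a, ha⟩
    · exfalso
      apply hz
      intro t
      have : t ∈ closure (S : Set ℝ) := hd t
      rw [hcl.closure_eq] at this
      exact this
    · have haS : a ∈ S := by rw [ha]; exact AddSubgroup.mem_closure_singleton_self a
      have hmem : ∀ t, Φ t z = z → ∃ n : ℤ, t = n * a := by
        intro t ht
        have : t ∈ S := ht
        rw [ha, AddSubgroup.mem_closure_singleton] at this
        obtain ⟨n, hn⟩ := this
        exact ⟨n, by rw [← hn]; simp⟩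
      have ha0 : a ≠ 0 := by
        rintro rfl
        obtain ⟨n, hn⟩ := hmem t₀ h0
        simp at hn
        exact ht₀ hn
      refine ⟨|a|, abs_pos.2 ha0, ?_, ?_⟩
      · rcases abs_choice a with h1 | h1
        · rw [h1]; exact haS
        · rw [h1]; exact S.neg_mem haS
      · intro t ht
        obtain ⟨n, hn⟩ := hmem t ht
        rcases abs_choice a with h1 | h1
        · exact ⟨n, by rw [h1, hn]⟩
        · exact ⟨-n, by rw [h1, hn]; push_cast; ring⟩
  obtain ⟨P, hP, hPz, hPt⟩ := key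
  refine ⟨?_, P, hP, hPz, hPt⟩
  have hper : ∀ n : ℤ, Φ (n * P) z = z := by
    intro n
    have h1 : P ∈ S := hPz
    have h2 : n • P ∈ S := S.zsmul_mem h1 n
    rw [zsmul_eq_mul] at h2
    exact h2
  have : range (fun t => Φ t z) = (fun t => Φ t z) '' Icc 0 P := by
    apply Subset.antisymm
    · rintro _ ⟨t, rfl⟩
      refine ⟨t - ⌊t / P⌋ * P, ⟨?_, ?_⟩, ?_⟩
      · have := Int.floor_le (t / P)
        rw [le_div_iff₀ hP] at this
        linarith
      · have := Int.lt_floor_add_one (t / P)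
        rw [div_lt_iff₀ hP] at this
        nlinarith
      · show Φ (t - ⌊t / P⌋ * P) z = Φ t z
        have h1 : Φ t z = Φ ((t - ⌊t / P⌋ * P) + ⌊t / P⌋ * P) z := by ring_nf
        rw [h1, h.add, hper]
    · exact image_subset_range _ _
  rw [this]
  exact isCompact_Icc.image (h.ct z)

end gen

end Run7.h305.FQ
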