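import Pool.Agent.Run7.h841.FQ.Iface
import Pool.Agent.Run7.h305.FQ.ORBBase

/-!
# Piece ORB of the project FQ (MP_74810d_gt) of helper841; helper305
-/

set_option autoImplicit false
set_option linter.unusedVariables false

namespace Run7.h305.FQ

open Set Topology Filter
open Run7.h841.FQ

theorem fl_of {Φ : ℝ → N5 → N5} (h : IsFlow Φ) : Fl Φ where
  cont := h.smooth.continuous
  zero := h.zero
  add := h.add

/-- **ORB** -/
theorem ORB : S_ORB := by
  intro Q _ _ Φ p hp z hz
  have h := fl_of hp.flow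
  have hO : p ⁻¹' {p z} = range (fun t => Φ t z) := by
    ext x
    simp only [mem_preimage, mem_singleton_iff, mem_range]
    rw [eq_comm, hp.fib]
  have hcl : IsClosed (range (fun t => Φ t z)) := by
    rw [← hO]; exact isClosed_singleton.preimage p.continuous
  have hper : ∀ t, t ≠ 0 → Φ t z = z → p z ∉ LL p ∧
      ∃ P : ℝ, 0 < P ∧ Φ P z = z ∧ ∀ t, Φ t z = z → ∃ n : ℤ, t = n * P := by
    intro t ht ht2
    obtain ⟨h1, h2⟩ := h.period z hz t ht ht2
    refine ⟨?_, h2⟩
    show ¬ ¬ IsCompact (p ⁻¹' {p z})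
    rw [not_not, hO]
    exact h1
  refine ⟨?_, ?_⟩
  · intro hL
    have hcomp : IsCompact (range (fun t => Φ t z)) := by
      have : ¬ ¬ IsCompact (p ⁻¹' {p z}) := hL
      rwa [not_not, hO] at this
    by_cases hinj : ∀ t, Φ t z = z → t = 0
    · obtain ⟨T, hT⟩ := h.proper z hcl hinj _ hcomp
      have := hT (|T| + 1) ⟨_, rfl⟩
      have h2 := le_abs_self T
      have h3 := le_abs_self (|T| + 1)
      linarith
    · push Not at hinj
      obtain ⟨t, ht1, ht2⟩ := hinj
      exact (hper t ht2 ht1).2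
  · intro hL
    have hinj : ∀ t, Φ t z = z → t = 0 := by
      intro t ht
      by_contra h0
      exact (hper t h0 ht).1 hL
    exact ⟨hinj, fun C hC => h.proper z hcl hinj C hC⟩

end Run7.h305.FQ
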